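import Pool.Agent.PFD.D1.Key

/-!
Row GBZ of squad PFD, block D1: the B-part with a central element (helper34).
-/

open scoped BigOperators

noncomputable section

namespace Pool.Agent.PFD.H34

open Pool.Agent.PFD Pool.Agent.PFC.B1

theorem swap5 {S A B C K M : Type} [Fintype S] [Fintype A] [Fintype B] [Fintype C] [Fintype K]
    [AddCommMonoid M] (f : S → A → B → C → K → M) :
    ∑ s, ∑ a, ∑ b, ∑ c, ∑ k, f s a b c k = ∑ c, ∑ k, ∑ s, ∑ a, ∑ b, f s a b c k := by
  calc ∑ s, ∑ a, ∑ b, ∑ c, ∑ k, f s a b c k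
      = ∑ s, ∑ a, ∑ c, ∑ b, ∑ k, f s a b c k :=
        Finset.sum_congr rfl fun s _ => Finset.sum_congr rfl fun a _ => Finset.sum_comm
    _ = ∑ s, ∑ a, ∑ c, ∑ k, ∑ b, f s a b c k :=
        Finset.sum_congr rfl fun s _ => Finset.sum_congr rfl fun a _ =>
          Finset.sum_congr rfl fun c _ => Finset.sum_comm
    _ = ∑ s, ∑ c, ∑ a, ∑ k, ∑ b, f s a b c k :=
        Finset.sum_congr rfl fun s _ => Finset.sum_comm
    _ = ∑ s, ∑ c, ∑ k, ∑ a, ∑ b, f s a b c k :=
        Finset.sum_congr rfl fun s _ => Finset.sum_congr rfl fun c _ => Finset.sum_comm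
    _ = ∑ c, ∑ s, ∑ k, ∑ a, ∑ b, f s a b c k := Finset.sum_comm
    _ = ∑ c, ∑ k, ∑ s, ∑ a, ∑ b, f s a b c k :=
        Finset.sum_congr rfl fun c _ => Finset.sum_comm

theorem gbz : GbzStmt := by
  intro R B A I J N _ _ _ _ _ _ _ _ D z hz
  unfold Net.GB Net.E Net.w4
  simp only [Lz, I1, LinearMap.mulLeft_apply, LinearMap.id_apply]
  refine Finset.sum_congr rfl fun r _ => ?_
  -- step A
  have hA : ∀ s i1 i2, (∑ i3, ∑ i4, ∑ k,
      D.c.lam (z * D.c.b' i1 * D.c.b' i2 * D.c.b' i3 * D.c.b' i4) *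
        (D.T (D.x r * D.u i1 * D.x s * D.u i2 * D.u k) *
          D.T (D.u' k * D.y r * D.u i3 * D.y s * D.u i4))) =
      ∑ i3, ∑ i4, ∑ k, D.c.lam (z * D.c.b' i1 * D.c.b' i3 * D.c.b' i4) *
        (D.T (D.x r * D.u i1 * D.x s * D.u i2 * D.u k) *
          D.T (D.u' k * D.y r * (D.u i3 * D.u' i2) * D.y s * D.u i4)) := by
    intro s i1 i2
    have hb : Bil R (fun p q : B => ∑ i4, ∑ k,
        D.c.lam (z * D.c.b' i1 * q * D.c.b' i4) *
        (D.T (D.x r * D.u i1 * D.x s * D.u i2 * D.u k) *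
          D.T (D.u' k * D.y r * D.j p * D.y s * D.u i4))) := by
      refine ⟨?_, ?_, ?_, ?_⟩
      · intro a a' b
        simp only [← Finset.sum_add_distrib]
        refine Finset.sum_congr rfl fun i4 _ => Finset.sum_congr rfl fun k _ => ?_
        rw [map_add, mul_add, add_mul, add_mul, D.T_add]
        ring
      · intro a b b'
        simp only [← Finset.sum_add_distrib]
        refine Finset.sum_congr rfl fun i4 _ => Finset.sum_congr rfl fun k _ => ?_
        rw [mul_add, add_mul, map_add]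
        ring
      · intro t a b
        simp only [smul_eq_mul, Finset.mul_sum]
        refine Finset.sum_congr rfl fun i4 _ => Finset.sum_congr rfl fun k _ => ?_
        rw [map_smul, mul_smul_comm, smul_mul_assoc, smul_mul_assoc, D.T_smul]
        ring
      · intro t a b
        simp only [smul_eq_mul, Finset.mul_sum]
        refine Finset.sum_congr rfl fun i4 _ => Finset.sum_congr rfl fun k _ => ?_
        rw [mul_smul_comm, smul_mul_assoc, map_smul, smul_eq_mul]
        ring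
    have h := D.m2 hb (D.c.b' i2)
    refine Eq.trans ?_ (h.symm.trans ?_)
    · refine Finset.sum_congr rfl fun i3 _ => Finset.sum_congr rfl fun i4 _ =>
        Finset.sum_congr rfl fun k _ => ?_
      rw [← mul_assoc (z * D.c.b' i1)]
      rfl
    · refine Finset.sum_congr rfl fun i3 _ => Finset.sum_congr rfl fun i4 _ =>
        Finset.sum_congr rfl fun k _ => ?_
      show _ * (_ * D.T (D.u' k * D.y r * D.j (D.c.b i3 * D.c.b' i2) * D.y s * D.u i4)) = _
      rw [show D.j (D.c.b i3 * D.c.b' i2) = D.u i3 * D.u' i2 from map_mul D.j _ _]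
  -- step B
  have hB : ∀ s i1 i2 i3, (∑ i4, ∑ k, D.c.lam (z * D.c.b' i1 * D.c.b' i3 * D.c.b' i4) *
        (D.T (D.x r * D.u i1 * D.x s * D.u i2 * D.u k) *
          D.T (D.u' k * D.y r * (D.u i3 * D.u' i2) * D.y s * D.u i4))) =
      ∑ k, D.T (D.u i1 * D.x s * D.u i2 * (D.u k * D.x r)) *
          D.T (D.u' k * D.y r * D.u i3 * (D.u' i2 * D.y s * D.u' i1) * (D.j z * D.u' i3)) := by
    intro s i1 i2 i3
    rw [Finset.sum_comm]
    refine Finset.sum_congr rfl fun k _ => ?_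
    have h4 := D.m4b (z * D.c.b' i1 * D.c.b' i3)
    have h5 : D.T (D.u' k * D.y r * (D.u i3 * D.u' i2) * D.y s *
        D.j (z * D.c.b' i1 * D.c.b' i3)) =
        ∑ i4, D.c.lam (z * D.c.b' i1 * D.c.b' i3 * D.c.b' i4) *
          D.T (D.u' k * D.y r * (D.u i3 * D.u' i2) * D.y s * D.u i4) := by
      conv_lhs => rw [← h4]
      rw [map_sum, Finset.mul_sum, D.T_sum]
      refine Finset.sum_congr rfl fun i4 _ => ?_
      rw [map_smul, mul_smul_comm, D.T_smul]
      rfl
    have h6 : D.T (D.x r * D.u i1 * D.x s * D.u i2 * D.u k) =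
        D.T (D.u i1 * D.x s * D.u i2 * (D.u k * D.x r)) := by
      rw [show D.x r * D.u i1 * D.x s * D.u i2 * D.u k =
        D.x r * (D.u i1 * D.x s * D.u i2 * D.u k) by simp only [mul_assoc], D.T_comm]
      simp only [mul_assoc]
    have h7 : D.j (z * D.c.b' i1 * D.c.b' i3) = D.u' i1 * (D.j z * D.u' i3) := by
      rw [hz, map_mul, map_mul, mul_assoc]
      rfl
    rw [h7] at h5
    have h8 : D.u' k * D.y r * (D.u i3 * D.u' i2) * D.y s * (D.u' i1 * (D.j z * D.u' i3)) =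
        D.u' k * D.y r * D.u i3 * (D.u' i2 * D.y s * D.u' i1) * (D.j z * D.u' i3) := by
      simp only [mul_assoc]
    rw [h8] at h5
    rw [h5, ← h6, Finset.mul_sum]
    refine Finset.sum_congr rfl fun i4 _ => ?_
    ring
  have hAB : ∀ s i1 i2, (∑ i3, ∑ i4, ∑ k,
      D.c.lam (z * D.c.b' i1 * D.c.b' i2 * D.c.b' i3 * D.c.b' i4) *
        (D.T (D.x r * D.u i1 * D.x s * D.u i2 * D.u k) *
          D.T (D.u' k * D.y r * D.u i3 * D.y s * D.u i4))) =
      ∑ i3, ∑ k, D.T (D.u i1 * D.x s * D.u i2 * (D.u k * D.x r)) *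
          D.T (D.u' k * D.y r * D.u i3 * (D.u' i2 * D.y s * D.u' i1) * (D.j z * D.u' i3)) :=
    fun s i1 i2 => (hA s i1 i2).trans (Finset.sum_congr rfl fun i3 _ => hB s i1 i2 i3)
  rw [Finset.sum_congr rfl fun s _ => Finset.sum_congr rfl fun i1 _ =>
    Finset.sum_congr rfl fun i2 _ => hAB s i1 i2]
  rw [swap5]
  refine Finset.sum_congr rfl fun i3 _ => Finset.sum_congr rfl fun k _ => ?_
  -- step C
  let f : A →ₗ[R] R := D.d.lam ∘ₗ (LinearMap.mulLeft R (D.u' k * D.y r * D.u i3)) ∘ₗ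
    (LinearMap.mulRight R (D.j z * D.u' i3))
  have hf : ∀ v, f v = D.T (D.u' k * D.y r * D.u i3 * v * (D.j z * D.u' i3)) := by
    intro v
    show D.d.lam (D.u' k * D.y r * D.u i3 * (v * (D.j z * D.u' i3))) = _
    rw [← mul_assoc]
    rfl
  have h9 := D.cqf f (D.u k * D.x r)
  have h10 : D.u k * D.x r - D.j (D.pr (D.u k * D.x r)) = D.u k * D.x r := by
    rw [Net.u, D.pr_l, D.px, mul_zero, map_zero, sub_zero]
  rw [h10, hf] at h9
  have h11 : D.u' k * D.y r * D.u i3 * (D.u k * D.x r) * (D.j z * D.u' i3) =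
      D.u' k * D.y r * D.u i3 * D.u k * D.x r * D.j z * D.u' i3 := by
    simp only [mul_assoc]
  rw [h11] at h9
  rw [← h9]
  refine Finset.sum_congr rfl fun s _ => Finset.sum_congr rfl fun i1 _ =>
    Finset.sum_congr rfl fun i2 _ => ?_
  rw [hf, smul_eq_mul]

end Pool.Agent.PFD.H34
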