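import Pool.Agent.PFD.StmtsD5b

/-!
Row TRN of squad PFD, block D5b: transport of V : E (helper34).
-/

open scoped BigOperators

noncomputable section

namespace Pool.Agent.PFD.H34

open Pool.Agent.PFD
open Pool.Agent.Helper51_AWC Pool.Agent.Helper79_WRA Pool.Agent.PP Pool.Agent.PP.KF
open Pool.Agent.PP.K9 Pool.Agent.PP.K9.H97 Pool.Agent.PP.H75 Pool.Agent.PP.T3 Pool.Agent.PP.T2

theorem card_conj_congr {A B : Type} [Group A] [Group B] (e : A ≃* B) :
    Nat.card (ConjClasses A) = Nat.card (ConjClasses B) := by
  refine Nat.card_eq_of_bijective (ConjClasses.map e.toMonoidHom)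
    ⟨?_, ConjClasses.map_surjective e.surjective⟩
  intro x y hxy
  obtain ⟨a, rfl⟩ := ConjClasses.exists_rep x
  obtain ⟨b, rfl⟩ := ConjClasses.exists_rep y
  have h1 : ConjClasses.mk (e a) = ConjClasses.mk (e b) := hxy
  rw [ConjClasses.mk_eq_mk_iff_isConj, isConj_iff] at h1
  rw [ConjClasses.mk_eq_mk_iff_isConj, isConj_iff]
  obtain ⟨c, hc⟩ := h1
  refine ⟨e.symm c, ?_⟩
  apply e.injective
  rw [map_mul, map_mul, map_inv, e.apply_symm_apply, hc]

theorem trn : TrnStmt := by
  intro F G _ V γ V' E _ _ ι φ hι hr hφ h3 h4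
  let a : V' ≃* V := (MonoidHom.ofInjective hι).trans (MulEquiv.subgroupCongr hr)
  have ha : ∀ w, ((a w : V) : G) = ι w := by
    intro w
    rfl
  have hmem : ∀ w, ι w ∈ V := by
    intro w
    rw [← ha]
    exact (a w).2
  have hex : ∀ v ∈ V, ∃ w, ι w = v := by
    intro v hv
    rw [← hr] at hv
    exact hv
  have key : ∀ x : E, MulAut.congr a (φ x) ∈ Ei V γ := by
    intro x
    obtain ⟨t, ht, htw⟩ := h4 x
    have hn : t ∈ Subgroup.normalizer (V : Set G) := by
      rw [Subgroup.mem_normalizer_iff]
      intro v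
      constructor
      · intro hv
        obtain ⟨w, rfl⟩ := hex v hv
        change t * ι w * t⁻¹ ∈ V
        rw [← htw]
        exact hmem _
      · intro hv
        obtain ⟨w, hw⟩ := hex _ hv
        have h5 := htw ((φ x).symm w)
        rw [MulEquiv.apply_symm_apply, hw] at h5
        have h6 : v = ι ((φ x).symm w) := by
          have h7 := mul_right_cancel h5
          exact mul_left_cancel h7
        rw [h6]
        exact hmem _
    refine ⟨⟨t, hn⟩, ?_, ?_⟩
    · exact ht
    · apply MulEquiv.ext
      intro v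
      apply Subtype.ext
      change t * (v : G) * t⁻¹ = ((a (φ x (a.symm v)) : V) : G)
      rw [ha, htw]
      congr 2
      rw [← ha, a.apply_symm_apply]
  let b : E →* Ei V γ :=
    { toFun := fun x => ⟨MulAut.congr a (φ x), key x⟩
      map_one' := by
        apply Subtype.ext
        change MulAut.congr a (φ 1) = 1
        rw [map_one, map_one]
      map_mul' := by
        intro x y
        apply Subtype.ext
        change MulAut.congr a (φ (x * y)) = MulAut.congr a (φ x) * MulAut.congr a (φ y)
        rw [map_mul, map_mul] }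
  have hb : Function.Bijective b := by
    constructor
    · intro x y hxy
      have h5 : MulAut.congr a (φ x) = MulAut.congr a (φ y) := congrArg Subtype.val hxy
      exact hφ ((MulAut.congr a).injective h5)
    · rintro ⟨σ, hσ⟩
      obtain ⟨n, hn, hn2⟩ := hσ
      obtain ⟨x, hx⟩ := h3 (n : G) hn
      refine ⟨x, ?_⟩
      apply Subtype.ext
      change MulAut.congr a (φ x) = σ
      rw [← hn2]
      apply MulEquiv.ext
      intro v
      apply Subtype.ext
      change ((a (φ x (a.symm v)) : V) : G) = (n : G) * (v : G) * (n : G)⁻¹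
      rw [ha, hx]
      congr 2
      rw [← ha, a.apply_symm_apply]
  let bE : E ≃* Ei V γ := MulEquiv.ofBijective b hb
  unfold kv
  refine card_conj_congr (SemidirectProduct.congr a bE ?_)
  intro x
  apply MulEquiv.ext
  intro w
  change a (φ x w) = a (φ x (a.symm (a w)))
  rw [a.symm_apply_apply]

end Pool.Agent.PFD.H34
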